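import Mathlib

set_option autoImplicit false

namespace Pool.Agent.Results.MP_9cbaed_nt.ExactOrder

open Polynomial

theorem four_pow (r : ℕ) : (4 : ℕ) ^ r = 2 ^ r * 2 ^ r := by
  rw [← mul_pow]; norm_num

/-- In a commutative ring of characteristic two, `x ^ q * (x + 1) = 1` with `q = 2 ^ r` forces
`x ^ (q ^ 2 + q + 1) = 1`. -/
theorem pow_eq_one_of_root {A : Type*} [CommRing A] [CharP A 2] (r : ℕ) (x : A)
    (h : x ^ (2 ^ r) * (x + 1) = 1) : x ^ (4 ^ r + 2 ^ r + 1) = 1 := by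
  have hq : (x ^ (2 ^ r)) ^ (2 ^ r) * (x ^ (2 ^ r) + 1) = 1 := by
    have h1 : (x ^ (2 ^ r) * (x + 1)) ^ (2 ^ r) = 1 := by rw [h, one_pow]
    rw [mul_pow, add_pow_char_pow (p := 2), one_pow] at h1
    exact h1
  have h2 : (x ^ (2 ^ r) + 1) * (x + 1) = x := by
    have h22 : (2 : A) = 0 := CharTwo.two_eq_zero
    linear_combination h + h22
  have h3 : (x ^ (2 ^ r)) ^ (2 ^ r) * x = x + 1 := by
    linear_combination (x + 1) * hq - (x ^ (2 ^ r)) ^ (2 ^ r) * h2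
  rw [four_pow, pow_succ, pow_add, pow_mul]
  linear_combination (x ^ (2 ^ r)) * h3 + h

/-- The reciprocal version. -/
theorem pow_eq_one_of_root' {A : Type*} [CommRing A] [CharP A 2] (r : ℕ) (x : A)
    (h : x * (x ^ (2 ^ r) + 1) = 1) : x ^ (4 ^ r + 2 ^ r + 1) = 1 := by
  have hq : x ^ (2 ^ r) * ((x ^ (2 ^ r)) ^ (2 ^ r) + 1) = 1 := by
    have h1 : (x * (x ^ (2 ^ r) + 1)) ^ (2 ^ r) = 1 := by rw [h, one_pow]
    rw [mul_pow, add_pow_char_pow (p := 2), one_pow] at h1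
    exact h1
  have h22 : (2 : A) = 0 := CharTwo.two_eq_zero
  rw [four_pow, pow_succ, pow_add, pow_mul]
  linear_combination x * hq + h - x * x ^ (2 ^ r) * h22

/-- Every nontrivial `(q ^ 2 + q + 1)`-th root of unity is a quotient of two roots of
`x ^ q * (x + 1) = 1`: the roots form a planar difference set. -/
theorem exists_quotient {K : Type*} [Field K] [CharP K 2] (r : ℕ) (c : K)
    (hc : c ^ (4 ^ r + 2 ^ r + 1) = 1) (hc1 : c ≠ 1) :
    ∃ s : K, s ^ (2 ^ r) * (s + 1) = 1 ∧ (c * s) ^ (2 ^ r) * (c * s + 1) = 1 := by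
  have h22 : (2 : K) = 0 := CharTwo.two_eq_zero
  have hc0 : c ≠ 0 := by
    rintro rfl
    rw [zero_pow (by positivity)] at hc
    exact zero_ne_one hc
  -- `Q = c ^ q`, `R = c ^ (q ^ 2)`
  obtain ⟨Q, hQ⟩ : ∃ Q : K, Q = c ^ (2 ^ r) := ⟨_, rfl⟩
  obtain ⟨R, hR⟩ : ∃ R : K, R = Q ^ (2 ^ r) := ⟨_, rfl⟩
  have hcRQ : R * Q * c = 1 := by
    rw [four_pow, pow_succ, pow_add, pow_mul, ← hQ, ← hR] at hc
    exact hc
  have hfrob : ∀ y : K, y ^ (2 ^ r) = 1 → y = 1 := by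
    intro y hy
    have : (y - 1) ^ (2 ^ r) = 0 := by
      rw [sub_pow_char_pow (p := 2), one_pow, hy, sub_self]
    have h0 := pow_eq_zero_iff (n := 2 ^ r) (by positivity) |>.mp this
    exact sub_eq_zero.mp h0
  have hne : 1 + c * Q ≠ 0 := by
    intro h0
    have h1 : c * Q = 1 := by linear_combination h0 - h22
    have h2 : R = 1 := by
      have : R * (c * Q) = 1 := by linear_combination hcRQ
      rwa [h1, mul_one] at this
    have h3 : Q = 1 := hfrob Q (by rw [← hR, h2])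
    exact hc1 (hfrob c (by rw [← hQ, h3]))
  have hc1' : 1 + c ≠ 0 := by
    intro h0
    exact hc1 (by linear_combination h0 - h22)
  have hne2 : 1 + Q * R ≠ 0 := by
    intro h0
    apply hc1'
    have : c * (1 + Q * R) = 0 := by rw [h0, mul_zero]
    linear_combination this - hcRQ
  have hs : ((1 + Q) / (1 + c * Q)) ^ (2 ^ r) = (1 + R) / (1 + Q * R) := by
    rw [div_pow, add_pow_char_pow (p := 2), add_pow_char_pow (p := 2), one_pow, mul_pow, ← hQ,
      ← hR]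
  refine ⟨(1 + Q) / (1 + c * Q), ?_, ?_⟩
  · rw [hs, div_add_one hne, div_mul_div_comm, div_eq_one_iff_eq (mul_ne_zero hne2 hne)]
    linear_combination (1 + R) * h22 + (1 - Q) * hcRQ
  · rw [mul_pow, hs, ← hQ, ← mul_div_assoc, ← mul_div_assoc, div_add_one hne, div_mul_div_comm,
      div_eq_one_iff_eq (mul_ne_zero hne2 hne)]
    linear_combination (c * Q * Q * (1 + R)) * h22 + (1 - Q) * hcRQ

/-- If every solution of `x ^ q * (x + 1) = 1` in an algebraically closed field of characteristic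
two satisfies `x ^ e = 1`, then `q ^ 2 + q + 1` divides `e`. -/
theorem dvd_of_forall_root {K : Type*} [Field K] [IsAlgClosed K] [CharP K 2] (r e : ℕ)
    (hr : 1 ≤ r) (h : ∀ s : K, s ^ (2 ^ r) * (s + 1) = 1 → s ^ e = 1) :
    4 ^ r + 2 ^ r + 1 ∣ e := by
  have hodd : ¬ 2 ∣ 4 ^ r + 2 ^ r + 1 := by
    have h1 : 2 ∣ 4 ^ r + 2 ^ r :=
      Dvd.dvd.add ((by norm_num : (2 : ℕ) ∣ 4).trans (dvd_pow_self 4 (by omega)))
        (dvd_pow_self 2 (by omega))
    omega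
  have : NeZero ((4 ^ r + 2 ^ r + 1 : ℕ) : K) := by
    refine ⟨fun h0 => hodd ?_⟩
    exact (CharP.cast_eq_zero_iff K 2 _).mp h0
  obtain ⟨c, hc⟩ := HasEnoughRootsOfUnity.exists_primitiveRoot K (4 ^ r + 2 ^ r + 1)
  have hc1 : c ≠ 1 := by
    rintro rfl
    have := hc.eq_orderOf
    rw [orderOf_one] at this
    have h2 : 0 < 4 ^ r := by positivity
    have h3 : 0 < 2 ^ r := by positivity
    omega
  obtain ⟨s, hs, hcs⟩ := exists_quotient r c hc.pow_eq_one hc1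
  have h1 := h s hs
  have h2 := h (c * s) hcs
  rw [mul_pow, h1, mul_one] at h2
  exact hc.dvd_of_pow_eq_one e h2

/-- The factorisation of `1 + X + X ^ q + X ^ (q + 2)`. -/
theorem factor (r : ℕ) : (1 + X + X ^ (2 ^ r) + X ^ (2 ^ r + 2) : (ZMod 2)[X]) =
    (1 + X) * (1 + X ^ (2 ^ r) + X ^ (2 ^ r + 1)) := by
  have h22 : (2 : (ZMod 2)[X]) = 0 := CharTwo.two_eq_zero
  rw [pow_add, pow_succ]
  linear_combination (-X * X ^ (2 ^ r)) * h22

theorem factor' (r : ℕ) : (1 + X ^ 2 + X ^ (2 ^ r + 1) + X ^ (2 ^ r + 2) : (ZMod 2)[X]) =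
    (1 + X) * (1 + X + X ^ (2 ^ r + 1)) := by
  have h22 : (2 : (ZMod 2)[X]) = 0 := CharTwo.two_eq_zero
  rw [pow_add, pow_succ]
  linear_combination (-X) * h22

theorem one_add_X_dvd (e : ℕ) : (1 + X : (ZMod 2)[X]) ∣ 1 + X ^ e := by
  have h22 : (2 : (ZMod 2)[X]) = 0 := CharTwo.two_eq_zero
  have h := sub_dvd_pow_sub_pow (X : (ZMod 2)[X]) 1 e
  have e1 : (X - 1 : (ZMod 2)[X]) = 1 + X := by linear_combination -h22
  have e2 : (X ^ e - 1 ^ e : (ZMod 2)[X]) = 1 + X ^ e := by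
    rw [one_pow]; linear_combination -h22
  rwa [e1, e2] at h

theorem isCoprime_one_add_X (g : (ZMod 2)[X]) (hg : g.eval 1 ≠ 0) : IsCoprime (1 + X) g := by
  have h22 : (2 : (ZMod 2)[X]) = 0 := CharTwo.two_eq_zero
  have e1 : (1 + X : (ZMod 2)[X]) = X - C 1 := by rw [map_one]; linear_combination h22
  rw [e1]
  refine (Irreducible.coprime_iff_not_dvd (irreducible_X_sub_C 1)).mpr ?_
  rw [dvd_iff_isRoot]
  exact hg

theorem dvd_N (r : ℕ) : (1 + X + X ^ (2 ^ r) + X ^ (2 ^ r + 2) : (ZMod 2)[X]) ∣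
    1 + X ^ (4 ^ r + 2 ^ r + 1) := by
  rw [factor]
  refine IsCoprime.mul_dvd (isCoprime_one_add_X _ ?_) (one_add_X_dvd _) ?_
  · simp only [eval_add, eval_one, eval_pow, eval_X, one_pow]
    decide
  · rw [← AdjoinRoot.mk_eq_zero]
    set g : (ZMod 2)[X] := 1 + X ^ (2 ^ r) + X ^ (2 ^ r + 1) with hg
    have : CharP (AdjoinRoot g) 2 := by
      refine charP_of_injective_algebraMap (R := ZMod 2) ?_ 2
      refine AdjoinRoot.of.injective_of_degree_ne_zero ?_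
      rw [hg]
      intro h0
      have h1 : (1 + X ^ (2 ^ r) + X ^ (2 ^ r + 1) : (ZMod 2)[X]).coeff (2 ^ r + 1) = 0 := by
        apply coeff_eq_zero_of_degree_lt
        rw [h0]
        exact_mod_cast Nat.succ_pos _
      simp [coeff_X_pow, coeff_one] at h1
    have h22 : (2 : AdjoinRoot g) = 0 := CharTwo.two_eq_zero
    have h0 : AdjoinRoot.mk g (1 + X ^ (2 ^ r) + X ^ (2 ^ r + 1)) = 0 := AdjoinRoot.mk_self
    have h1 : (AdjoinRoot.root g) ^ (2 ^ r) * (AdjoinRoot.root g + 1) = 1 := by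
      simp only [map_add, map_one, map_pow, AdjoinRoot.mk_X] at h0
      rw [pow_succ] at h0
      linear_combination h0 - h22
    have h2 := pow_eq_one_of_root r _ h1
    simp only [map_add, map_one, map_pow, AdjoinRoot.mk_X, h2]
    linear_combination h22

theorem dvd_N' (r : ℕ) : (1 + X ^ 2 + X ^ (2 ^ r + 1) + X ^ (2 ^ r + 2) : (ZMod 2)[X]) ∣
    1 + X ^ (4 ^ r + 2 ^ r + 1) := by
  rw [factor']
  refine IsCoprime.mul_dvd (isCoprime_one_add_X _ ?_) (one_add_X_dvd _) ?_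
  · simp only [eval_add, eval_one, eval_pow, eval_X, one_pow]
    decide
  · rw [← AdjoinRoot.mk_eq_zero]
    set g : (ZMod 2)[X] := 1 + X + X ^ (2 ^ r + 1) with hg
    have : CharP (AdjoinRoot g) 2 := by
      refine charP_of_injective_algebraMap (R := ZMod 2) ?_ 2
      refine AdjoinRoot.of.injective_of_degree_ne_zero ?_
      rw [hg]
      intro h0
      have h1 : (1 + X + X ^ (2 ^ r + 1) : (ZMod 2)[X]).coeff (2 ^ r + 1) = 0 := by
        apply coeff_eq_zero_of_degree_lt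
        rw [h0]
        exact_mod_cast Nat.succ_pos _
      simp [coeff_X_pow, coeff_one, coeff_X] at h1
    have h22 : (2 : AdjoinRoot g) = 0 := CharTwo.two_eq_zero
    have h0 : AdjoinRoot.mk g (1 + X + X ^ (2 ^ r + 1)) = 0 := AdjoinRoot.mk_self
    have h1 : (AdjoinRoot.root g) * ((AdjoinRoot.root g) ^ (2 ^ r) + 1) = 1 := by
      simp only [map_add, map_one, map_pow, AdjoinRoot.mk_X] at h0
      rw [pow_succ] at h0
      linear_combination h0 - h22
    have h2 := pow_eq_one_of_root' r _ h1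
    simp only [map_add, map_one, map_pow, AdjoinRoot.mk_X, h2]
    linear_combination h22

theorem N_dvd (r e : ℕ) (hr : 1 ≤ r)
    (h : (1 + X + X ^ (2 ^ r) + X ^ (2 ^ r + 2) : (ZMod 2)[X]) ∣ 1 + X ^ e) :
    4 ^ r + 2 ^ r + 1 ∣ e := by
  have : CharP (AlgebraicClosure (ZMod 2)) 2 :=
    charP_of_injective_algebraMap (algebraMap (ZMod 2) _).injective 2
  have h22 : (2 : AlgebraicClosure (ZMod 2)) = 0 := CharTwo.two_eq_zero
  refine dvd_of_forall_root (K := AlgebraicClosure (ZMod 2)) r e hr fun s hs => ?_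
  have h1 := map_dvd (aeval s) h
  simp only [map_add, map_one, map_pow, aeval_X] at h1
  have h2 : 1 + s + s ^ (2 ^ r) + s ^ (2 ^ r + 2) = 0 := by
    rw [pow_add, pow_succ]
    linear_combination (1 + s) * hs + (1 + s) * h22 - s * s ^ (2 ^ r) * h22
  rw [h2, zero_dvd_iff] at h1
  linear_combination h1 - h22

theorem N_dvd' (r e : ℕ) (hr : 1 ≤ r)
    (h : (1 + X ^ 2 + X ^ (2 ^ r + 1) + X ^ (2 ^ r + 2) : (ZMod 2)[X]) ∣ 1 + X ^ e) :
    4 ^ r + 2 ^ r + 1 ∣ e := by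
  have : CharP (AlgebraicClosure (ZMod 2)) 2 :=
    charP_of_injective_algebraMap (algebraMap (ZMod 2) _).injective 2
  have h22 : (2 : AlgebraicClosure (ZMod 2)) = 0 := CharTwo.two_eq_zero
  refine dvd_of_forall_root (K := AlgebraicClosure (ZMod 2)) r e hr fun s hs => ?_
  have hs0 : s ≠ 0 := by
    rintro rfl
    rw [zero_pow (by positivity), zero_mul] at hs
    exact zero_ne_one hs
  obtain ⟨t, ht⟩ : ∃ t, t = s⁻¹ := ⟨_, rfl⟩
  have hst : s * t = 1 := by rw [ht]; exact mul_inv_cancel₀ hs0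
  have h1 := map_dvd (aeval t) h
  simp only [map_add, map_one, map_pow, aeval_X] at h1
  have hq : s ^ (2 ^ r) * t ^ (2 ^ r) = 1 := by rw [← mul_pow, hst, one_pow]
  have ht1 : t * (t ^ (2 ^ r) + 1) = 1 := by
    -- `t ^ q = s + 1` and `t * (s + 1) = ...`
    have h3 : t ^ (2 ^ r) = s + 1 := by
      linear_combination (s + 1) * hq - t ^ (2 ^ r) * hs
    rw [h3]
    linear_combination hst + t * h22
  have h2 : 1 + t ^ 2 + t ^ (2 ^ r + 1) + t ^ (2 ^ r + 2) = 0 := by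
    rw [pow_add, pow_add]
    linear_combination (1 + t) * ht1 + (1 + t) * h22 - t * h22
  rw [h2, zero_dvd_iff] at h1
  have h4 : t ^ e = 1 := by linear_combination h1 - h22
  have h5 : s ^ e * t ^ e = 1 := by rw [← mul_pow, hst, one_pow]
  rwa [h4, mul_one] at h5

/-- For every `r ≥ 3`, the orders of `1 + X + X ^ (2 ^ r) + X ^ (2 ^ r + 2)` and of its reciprocal
`1 + X ^ 2 + X ^ (2 ^ r + 1) + X ^ (2 ^ r + 2)` over the field with two elements are both
exactly `4 ^ r + 2 ^ r + 1`. -/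
theorem result : ∀ r : ℕ, 3 ≤ r →
    IsLeast {e : ℕ | 0 < e ∧
      (1 + X + X ^ (2 ^ r) + X ^ (2 ^ r + 2) : (ZMod 2)[X]) ∣ 1 + X ^ e} (4 ^ r + 2 ^ r + 1) ∧
    IsLeast {e : ℕ | 0 < e ∧
      (1 + X ^ 2 + X ^ (2 ^ r + 1) + X ^ (2 ^ r + 2) : (ZMod 2)[X]) ∣ 1 + X ^ e}
      (4 ^ r + 2 ^ r + 1) := by
  intro r hr
  refine ⟨⟨⟨by positivity, dvd_N r⟩, ?_⟩, ⟨⟨by positivity, dvd_N' r⟩, ?_⟩⟩
  · rintro e ⟨he, h⟩
    exact Nat.le_of_dvd he (N_dvd r e (by omega) h)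
  · rintro e ⟨he, h⟩
    exact Nat.le_of_dvd he (N_dvd' r e (by omega) h)

end Pool.Agent.Results.MP_9cbaed_nt.ExactOrder
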